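import Pool.Agent.W206.YP.Stm

set_option autoImplicit false

namespace Pool.Agent.W576.YP.GP

open MvPolynomial Pool.Agent.W206.YP

variable {G : Type} (κ : G → Bool)

/-- the images of the coordinates -/
noncomputable def th0 (p : G × Fin 3) : MvPolynomial (G × Fin 2) ℂ :=
  if p.2 = 2 then (if κ p.1 then X (p.1, 0) + X (p.1, 1) else X (p.1, 0) * X (p.1, 1))
  else if p.2 = 0 then X (p.1, 0) else X (p.1, 1)

theorem th0_0 (g : G) : th0 κ (g, 0) = X (g, 0) := by simp [th0]
theorem th0_1 (g : G) : th0 κ (g, 1) = X (g, 1) := by simp [th0]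
theorem th0_2 (g : G) : th0 κ (g, 2) =
    if κ g then X (g, 0) + X (g, 1) else X (g, 0) * X (g, 1) := by simp [th0]

/-- the substitution -/
noncomputable def th : MvPolynomial (G × Fin 3) ℂ →ₐ[ℂ] MvPolynomial (G × Fin 2) ℂ :=
  aeval (th0 κ)

theorem th_X (p : G × Fin 3) : th κ (X p) = th0 κ p := by rw [th, aeval_X]

/-- the section -/
noncomputable def sc : MvPolynomial (G × Fin 2) ℂ →ₐ[ℂ] MvPolynomial (G × Fin 3) ℂ :=
  aeval (fun p => X (p.1, Fin.castSucc p.2))

theorem sc_0 (g : G) : sc (X (g, 0) : MvPolynomial (G × Fin 2) ℂ) = X (g, 0) := by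
  rw [sc, aeval_X]; rfl
theorem sc_1 (g : G) : sc (X (g, 1) : MvPolynomial (G × Fin 2) ℂ) = X (g, 1) := by
  rw [sc, aeval_X]; rfl

theorem th_sc (f : MvPolynomial (G × Fin 2) ℂ) : th κ (sc f) = f := by
  have h : (th κ).comp sc = AlgHom.id ℂ _ := by
    apply MvPolynomial.algHom_ext
    rintro ⟨g, i⟩
    fin_cases i
    · show th κ (sc (X (g, 0))) = X (g, 0)
      rw [sc_0, th_X, th0_0]
    · show th κ (sc (X (g, 1))) = X (g, 1)
      rw [sc_1, th_X, th0_1]
  exact DFunLike.congr_fun h f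

theorem gen_mem (g : G) : (X (g, 2) - if κ g then X (g, 0) + X (g, 1) else X (g, 0) * X (g, 1) :
    MvPolynomial (G × Fin 3) ℂ) ∈ gI κ := Ideal.subset_span ⟨g, rfl⟩

theorem mk_eq (f : MvPolynomial (G × Fin 3) ℂ) :
    Ideal.Quotient.mkₐ ℂ (gI κ) f = Ideal.Quotient.mkₐ ℂ (gI κ) (sc (th κ f)) := by
  have h : Ideal.Quotient.mkₐ ℂ (gI κ) = (Ideal.Quotient.mkₐ ℂ (gI κ)).comp (sc.comp (th κ)) := by
    apply MvPolynomial.algHom_ext
    rintro ⟨g, i⟩
    fin_cases i
    · show Ideal.Quotient.mkₐ ℂ (gI κ) (X (g, 0)) =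
        Ideal.Quotient.mkₐ ℂ (gI κ) (sc (th κ (X (g, 0))))
      rw [th_X, th0_0, sc_0]
    · show Ideal.Quotient.mkₐ ℂ (gI κ) (X (g, 1)) =
        Ideal.Quotient.mkₐ ℂ (gI κ) (sc (th κ (X (g, 1))))
      rw [th_X, th0_1, sc_1]
    · show Ideal.Quotient.mkₐ ℂ (gI κ) (X (g, 2)) =
        Ideal.Quotient.mkₐ ℂ (gI κ) (sc (th κ (X (g, 2))))
      rw [← sub_eq_zero, ← map_sub, Ideal.Quotient.mkₐ_eq_mk, Ideal.Quotient.eq_zero_iff_mem,
        th_X, th0_2]
      have h1 := gen_mem κ g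
      by_cases hk : κ g = true
      · rw [if_pos hk] at h1 ⊢
        rw [map_add, sc_0, sc_1]
        exact h1
      · rw [if_neg hk] at h1 ⊢
        rw [map_mul, sc_0, sc_1]
        exact h1
  exact DFunLike.congr_fun h f

theorem ker_eq : RingHom.ker (th κ) = gI κ := by
  apply le_antisymm
  · intro f hf
    rw [RingHom.mem_ker] at hf
    have h1 := mk_eq κ f
    rw [hf, map_zero, map_zero, Ideal.Quotient.mkₐ_eq_mk, Ideal.Quotient.eq_zero_iff_mem] at h1
    exact h1
  · rw [gI, Ideal.span_le]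
    rintro _ ⟨g, rfl⟩
    show th κ (X (g, 2) - if κ g then X (g, 0) + X (g, 1) else X (g, 0) * X (g, 1)) = 0
    by_cases hk : κ g = true
    · rw [if_pos hk, map_sub, map_add, th_X, th_X, th_X, th0_0, th0_1, th0_2, if_pos hk, sub_self]
    · rw [if_neg hk, map_sub, map_mul, th_X, th_X, th_X, th0_0, th0_1, th0_2, if_neg hk, sub_self]

theorem th_surj : Function.Surjective (th κ) := fun f => ⟨sc f, th_sc κ f⟩

/-- the point of the product of gates with given inputs -/
noncomputable def pt (y : G × Fin 2 → ℂ) (p : G × Fin 3) : ℂ := eval y (th0 κ p)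

theorem pt_mem (y : G × Fin 2 → ℂ) : pt κ y ∈ GV κ := by
  intro g
  unfold pt
  rw [th0_0, th0_1, th0_2]
  by_cases hk : κ g = true
  · rw [if_pos hk, if_pos hk, map_add]
  · rw [if_neg hk, if_neg hk, map_mul]

theorem eval_pt (y : G × Fin 2 → ℂ) (f : MvPolynomial (G × Fin 3) ℂ) :
    eval (pt κ y) f = eval y (th κ f) := by
  have h : (aeval (pt κ y) : MvPolynomial (G × Fin 3) ℂ →ₐ[ℂ] ℂ) =
      (aeval y : MvPolynomial (G × Fin 2) ℂ →ₐ[ℂ] ℂ).comp (th κ) := by
    apply MvPolynomial.algHom_ext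
    intro p
    rw [aeval_X, AlgHom.comp_apply, th_X, pt, aeval_eq_eval]
  have h1 := DFunLike.congr_fun h f
  rw [AlgHom.comp_apply, aeval_eq_eval, aeval_eq_eval] at h1
  exact h1

theorem IV_eq : IV (GV κ) = gI κ := by
  apply le_antisymm
  · intro f hf
    rw [← ker_eq, RingHom.mem_ker]
    apply MvPolynomial.funext
    intro y
    rw [map_zero, ← eval_pt]
    exact hf _ (pt_mem κ y)
  · rw [gI, Ideal.span_le]
    rintro _ ⟨g, rfl⟩
    intro x hx
    have h1 := hx g
    show eval x (X (g, 2) - if κ g then X (g, 0) + X (g, 1) else X (g, 0) * X (g, 1)) = 0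
    by_cases hk : κ g = true
    · rw [if_pos hk] at h1
      rw [if_pos hk, map_sub, map_add, eval_X, eval_X, eval_X, h1, sub_self]
    · rw [if_neg hk] at h1
      rw [if_neg hk, map_sub, map_mul, eval_X, eval_X, eval_X, h1, sub_self]

theorem isVar : IsVar (GV κ) := by
  refine ⟨?_, ?_⟩
  · apply Set.Subset.antisymm
    · intro x hx f hf
      exact hf x hx
    · intro x hx g
      have h1 := hx _ (by rw [IV_eq]; exact gen_mem κ g)
      by_cases hk : κ g = true
      · rw [if_pos hk, map_sub, map_add, eval_X, eval_X, eval_X, sub_eq_zero] at h1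
        rw [if_pos hk, h1]
      · rw [if_neg hk, map_sub, map_mul, eval_X, eval_X, eval_X, sub_eq_zero] at h1
        rw [if_neg hk, h1]
  · rw [IV_eq, ← ker_eq]
    exact RingHom.ker_isPrime _

/-- the coordinate ring -/
noncomputable def eqv : (MvPolynomial (G × Fin 3) ℂ ⧸ gI κ) ≃ₐ[ℂ] MvPolynomial (G × Fin 2) ℂ :=
  (Ideal.quotientEquivAlgOfEq ℂ (ker_eq κ).symm).trans
    (Ideal.quotientKerAlgEquivOfSurjective (th_surj κ))

theorem main : S_GP := by
  intro G _ κ
  refine ⟨isVar κ, IV_eq κ, ?_⟩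
  intro m
  have hcard : Fintype.card (G × Fin 2) = 2 * Fintype.card G := by
    rw [Fintype.card_prod, Fintype.card_fin, mul_comm]
  constructor
  · rintro ⟨y, hy⟩
    have h1 : AlgebraicIndependent ℂ (fun i => eqv κ (y i)) :=
      hy.map' (f := (eqv κ).toAlgHom) (eqv κ).injective
    have h2 := h1.cardinalMk_le_trdeg
    rw [MvPolynomial.trdeg_of_isDomain, Cardinal.lift_id, Cardinal.mk_fin, Cardinal.mk_fintype,
      hcard] at h2
    exact_mod_cast h2
  · intro hm
    have h1 : Fintype.card (Fin m) ≤ Fintype.card (G × Fin 2) := by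
      rw [Fintype.card_fin, hcard]
      exact hm
    obtain ⟨j⟩ := Function.Embedding.nonempty_of_card_le h1
    have h2 : AlgebraicIndependent ℂ (fun i : Fin m => (X (j i) : MvPolynomial (G × Fin 2) ℂ)) :=
      (MvPolynomial.algebraicIndependent_X (G × Fin 2) ℂ).comp j j.injective
    exact ⟨fun i => (eqv κ).symm (X (j i)),
      h2.map' (f := (eqv κ).symm.toAlgHom) (eqv κ).symm.injective⟩

end Pool.Agent.W576.YP.GP
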